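import Mathlib
import Pool.Agent.Q121.RatCompletion

set_option autoImplicit false

/-!
# Rational positive semidefinite completion on the 5-cycle

The vertices of the 5-cycle are the elements of `Fin 5`, the edges are the pairs `i, i + 1`
(addition modulo 5), and `x i` is the prescribed entry at the edge `i, i + 1`.
-/

namespace Pool.Agent.Results.MP_dcc435_co.RationalCompletion

open Matrix

/-- `X` is a psd completion of the vector `x` indexed by the edges `{i, i + 1}` of the 5-cycle: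
a real (symmetric) positive semidefinite matrix with unit diagonal and entries `x i` at the
edges `{i, i + 1}`. -/
def IsPsdCompletion (x : Fin 5 → ℝ) (X : Matrix (Fin 5) (Fin 5) ℝ) : Prop :=
  X.PosSemidef ∧ (∀ i, X i i = 1) ∧ ∀ i, X i (i + 1) = x i

/-- The coefficients of the projection. -/
lemma coeffs (a b y : ℚ) (ha : a ^ 2 ≤ 1) (hy : y ^ 2 ≤ 1)
    (h : (y - a * b) ^ 2 ≤ (1 - a ^ 2) * (1 - b ^ 2)) :
    ∃ α β : ℚ, a = α + β * y ∧ b = α * y + β ∧ α * a + β * b ≤ 1 := by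
  rcases hy.eq_or_lt with hy1 | hy1
  · refine ⟨a, 0, by ring, ?_, ?_⟩
    · have h1 : (a - y * b) ^ 2 ≤ 0 := by nlinarith
      have h2 : a - y * b = 0 := by nlinarith [sq_nonneg (a - y * b)]
      have h3 : a = y * b := by linarith
      rw [h3]
      have : y * b * y + 0 = y ^ 2 * b := by ring
      rw [this, hy1]; ring
    · nlinarith
  · have h0 : (1 - y ^ 2) ≠ 0 := by linarith
    have h0' : 0 < 1 - y ^ 2 := by linarith
    refine ⟨(a - y * b) / (1 - y ^ 2), (b - y * a) / (1 - y ^ 2), ?_, ?_, ?_⟩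
    · field_simp; ring
    · field_simp; ring
    · have : (a - y * b) / (1 - y ^ 2) * a + (b - y * a) / (1 - y ^ 2) * b =
          (a ^ 2 + b ^ 2 - 2 * a * b * y) / (1 - y ^ 2) := by
        field_simp; ring
      rw [this, div_le_one h0']
      nlinarith

/-- A ternary quadratic form. -/
lemma q3 (y z c s t u : ℝ) (hy : y ^ 2 ≤ 1) (hz : z ^ 2 ≤ 1)
    (h : y ^ 2 + z ^ 2 - 2 * c * y * z ≤ 1 - c ^ 2) :
    0 ≤ s ^ 2 + t ^ 2 + u ^ 2 + 2 * y * s * t + 2 * z * s * u + 2 * c * t * u := by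
  have h1 : s ^ 2 + t ^ 2 + u ^ 2 + 2 * y * s * t + 2 * z * s * u + 2 * c * t * u =
      (s + y * t + z * u) ^ 2 + ((1 - y ^ 2) * t ^ 2 + (1 - z ^ 2) * u ^ 2 +
        2 * (c - y * z) * t * u) := by ring
  rw [h1]
  have h2 : (c - y * z) ^ 2 ≤ (1 - y ^ 2) * (1 - z ^ 2) := by nlinarith
  have hA : 0 ≤ 1 - y ^ 2 := by linarith
  have hB : 0 ≤ 1 - z ^ 2 := by linarith
  have h3 : 0 ≤ (1 - y ^ 2) * t ^ 2 + (1 - z ^ 2) * u ^ 2 + 2 * (c - y * z) * t * u := by
    rcases hA.eq_or_lt with hA0 | hA0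
    · rw [← hA0] at h2 ⊢
      have : c - y * z = 0 := by nlinarith [sq_nonneg (c - y * z)]
      rw [this]
      nlinarith [sq_nonneg u, mul_nonneg hB (sq_nonneg u)]
    · have h4 : 0 ≤ (1 - y ^ 2) * ((1 - y ^ 2) * t ^ 2 + (1 - z ^ 2) * u ^ 2 +
          2 * (c - y * z) * t * u) := by
        have : (1 - y ^ 2) * ((1 - y ^ 2) * t ^ 2 + (1 - z ^ 2) * u ^ 2 +
          2 * (c - y * z) * t * u) = ((1 - y ^ 2) * t + (c - y * z) * u) ^ 2 +
            ((1 - y ^ 2) * (1 - z ^ 2) - (c - y * z) ^ 2) * u ^ 2 := by ring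
        rw [this]
        have h5 := sq_nonneg u
        have h6 : 0 ≤ (1 - y ^ 2) * (1 - z ^ 2) - (c - y * z) ^ 2 := by linarith
        positivity
      exact nonneg_of_mul_nonneg_right h4 hA0
  have := sq_nonneg (s + y * t + z * u)
  linarith

/-- Three-by-three principal minors. -/
lemma minor3 (X : Matrix (Fin 5) (Fin 5) ℝ) (hX : X.PosSemidef) (hd : ∀ i, X i i = 1)
    (i j k : Fin 5) :
    (X i j) ^ 2 + (X j k) ^ 2 + (X i k) ^ 2 - 2 * X i j * X j k * X i k ≤ 1 := by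
  have h := (hX.submatrix ![i, j, k]).det_nonneg
  rw [Matrix.det_fin_three] at h
  simp only [Matrix.submatrix_apply, Matrix.cons_val_zero, Matrix.cons_val_one,
    Matrix.cons_val, hd] at h
  have s1 : X j i = X i j := by simpa using hX.1.apply i j
  have s2 : X k i = X i k := by simpa using hX.1.apply i k
  have s3 : X k j = X j k := by simpa using hX.1.apply j k
  rw [s1, s2, s3] at h
  nlinarith

lemma minor2 (X : Matrix (Fin 5) (Fin 5) ℝ) (hX : X.PosSemidef) (hd : ∀ i, X i i = 1)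
    (i j : Fin 5) : (X i j) ^ 2 ≤ 1 := by
  have h := (hX.submatrix ![i, j]).det_nonneg
  rw [Matrix.det_fin_two] at h
  simp only [Matrix.submatrix_apply, Matrix.cons_val_zero, Matrix.cons_val_one, hd] at h
  have s1 : X j i = X i j := by simpa using hX.1.apply i j
  rw [s1] at h
  nlinarith

/-- The glued matrix. -/
def glue (a b c d e y z α β γ δ : ℚ) : Matrix (Fin 5) (Fin 5) ℚ :=
  !![1, a, y, z, e;
    a, 1, b, α * z + β * c, α * γ + α * δ * z + β * γ * y + β * δ * c;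
    y, b, 1, c, γ * y + δ * c;
    z, α * z + β * c, c, 1, d;
    e, α * γ + α * δ * z + β * γ * y + β * δ * c, γ * y + δ * c, d, 1]

lemma glue_psd (a b c d e y z α β γ δ : ℚ) (hy : y ^ 2 ≤ 1) (hz : z ^ 2 ≤ 1)
    (h : y ^ 2 + z ^ 2 - 2 * c * y * z ≤ 1 - c ^ 2)
    (h1 : a = α + β * y) (h2 : b = α * y + β) (h3 : α * a + β * b ≤ 1)
    (h4 : e = γ + δ * z) (h5 : d = γ * z + δ) (h6 : γ * e + δ * d ≤ 1) :
    ((glue a b c d e y z α β γ δ).map (fun q : ℚ => (q : ℝ))).PosSemidef := by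
  apply Matrix.PosSemidef.of_dotProduct_mulVec_nonneg
  · apply Matrix.IsHermitian.ext
    intro i j
    fin_cases i <;> fin_cases j <;> simp [glue]
  · intro t
    have key := q3 (y : ℝ) z c (t 0 + α * t 1 + γ * t 4) (t 2 + β * t 1) (t 3 + δ * t 4)
      (by exact_mod_cast hy) (by exact_mod_cast hz) (by exact_mod_cast h)
    have k3 : (0 : ℝ) ≤ 1 - (α * a + β * b) := by
      have : (0 : ℚ) ≤ 1 - (α * a + β * b) := by linarith
      exact_mod_cast this
    have k6 : (0 : ℝ) ≤ 1 - (γ * e + δ * d) := by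
      have : (0 : ℚ) ≤ 1 - (γ * e + δ * d) := by linarith
      exact_mod_cast this
    have k1 := mul_nonneg k3 (sq_nonneg (t 1))
    have k4 := mul_nonneg k6 (sq_nonneg (t 4))
    have e1 : (a : ℝ) = α + β * y := by exact_mod_cast h1
    have e2 : (b : ℝ) = α * y + β := by exact_mod_cast h2
    have e4 : (e : ℝ) = γ + δ * z := by exact_mod_cast h4
    have e5 : (d : ℝ) = γ * z + δ := by exact_mod_cast h5
    have tot : star t ⬝ᵥ (((glue a b c d e y z α β γ δ).map (fun q : ℚ => (q : ℝ))) *ᵥ t) =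
        ((t 0 + α * t 1 + γ * t 4) ^ 2 + (t 2 + β * t 1) ^ 2 + (t 3 + δ * t 4) ^ 2 +
          2 * y * (t 0 + α * t 1 + γ * t 4) * (t 2 + β * t 1) +
          2 * z * (t 0 + α * t 1 + γ * t 4) * (t 3 + δ * t 4) +
          2 * c * (t 2 + β * t 1) * (t 3 + δ * t 4)) +
        (1 - (α * a + β * b)) * t 1 ^ 2 + (1 - (γ * e + δ * d)) * t 4 ^ 2 := by
      simp only [dotProduct, Matrix.mulVec, Fin.sum_univ_five, glue, Matrix.map_apply,
        Matrix.of_apply, Matrix.cons_val', Matrix.cons_val_zero, Matrix.cons_val_one,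
        Matrix.cons_val, Pi.star_apply, star_trivial]
      push_cast
      rw [e1, e2, e4, e5]
      ring
    rw [tot]
    linarith

/-- **Positive answer.** Every rational vector on the edges of the 5-cycle which has a (real) psd
completion has a psd completion all of whose entries are rational. -/
theorem result (x : Fin 5 → ℚ)
    (hx : ∃ X : Matrix (Fin 5) (Fin 5) ℝ, IsPsdCompletion (fun i => (x i : ℝ)) X) :
    ∃ Y : Matrix (Fin 5) (Fin 5) ℚ,
      IsPsdCompletion (fun i => (x i : ℝ)) (Y.map (fun q : ℚ => (q : ℝ))) := by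
  obtain ⟨X, hX, hd, he⟩ := hx
  have E0 : X 0 1 = x 0 := he 0
  have E1 : X 1 2 = x 1 := he 1
  have E2 : X 2 3 = x 2 := he 2
  have E3 : X 3 4 = x 3 := he 3
  have E4 : X 4 0 = x 4 := he 4
  have E4' : X 0 4 = x 4 := by
    rw [← E4]; simpa using hX.1.apply 4 0
  have m1 := minor3 X hX hd 0 1 2
  have m2 := minor3 X hX hd 0 3 4
  have m3 := minor3 X hX hd 0 2 3
  rw [E0, E1] at m1
  rw [E3, E4'] at m2
  rw [E2] at m3
  have a2 : (x 0) ^ 2 ≤ 1 := by
    have := minor2 X hX hd 0 1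
    rw [E0] at this; exact_mod_cast this
  have b2 : (x 1) ^ 2 ≤ 1 := by
    have := minor2 X hX hd 1 2
    rw [E1] at this; exact_mod_cast this
  have c2 : (x 2) ^ 2 ≤ 1 := by
    have := minor2 X hX hd 2 3
    rw [E2] at this; exact_mod_cast this
  have d2 : (x 3) ^ 2 ≤ 1 := by
    have := minor2 X hX hd 3 4
    rw [E3] at this; exact_mod_cast this
  have e2 : (x 4) ^ 2 ≤ 1 := by
    have := minor2 X hX hd 0 4
    rw [E4'] at this; exact_mod_cast this
  have hA : 0 ≤ (1 - x 0 ^ 2) * (1 - x 1 ^ 2) := mul_nonneg (by linarith) (by linarith)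
  have hB : 0 ≤ (1 - x 3 ^ 2) * (1 - x 4 ^ 2) := mul_nonneg (by linarith) (by linarith)
  obtain ⟨y, z, h1, h2, h3⟩ := Q121.RatCompletion.exists_rat (x 0 * x 1) (x 3 * x 4)
    ((1 - x 0 ^ 2) * (1 - x 1 ^ 2)) ((1 - x 3 ^ 2) * (1 - x 4 ^ 2)) (x 2) hA hB c2
    (X 0 2) (X 0 3) (by push_cast; nlinarith) (by push_cast; nlinarith) (by nlinarith)
  have h1' : (y - x 0 * x 1) ^ 2 ≤ (1 - x 0 ^ 2) * (1 - x 1 ^ 2) := by exact_mod_cast h1
  have h2' : (z - x 3 * x 4) ^ 2 ≤ (1 - x 3 ^ 2) * (1 - x 4 ^ 2) := by exact_mod_cast h2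
  have h3' : y ^ 2 + z ^ 2 - 2 * x 2 * y * z ≤ 1 - (x 2) ^ 2 := by exact_mod_cast h3
  have bound : ∀ a b y : ℚ, a ^ 2 ≤ 1 → b ^ 2 ≤ 1 →
      (y - a * b) ^ 2 ≤ (1 - a ^ 2) * (1 - b ^ 2) → y ^ 2 ≤ 1 := by
    intro a b y ha hb h
    rcases ha.eq_or_lt with ha1 | ha1
    · have h1 : (y - a * b) ^ 2 ≤ 0 := by rw [ha1] at h; linarith
      have h2 : y - a * b = 0 := by nlinarith [sq_nonneg (y - a * b)]
      have h3 : y = a * b := by linarith
      rw [h3, mul_pow, ha1]; linarith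
    · have h0 : 0 ≤ (1 - a ^ 2) * (1 - y ^ 2) := by
        have : (1 - a ^ 2) * (1 - y ^ 2) = ((1 - a ^ 2) * b - a * (y - a * b)) ^ 2 +
          ((1 - a ^ 2) * (1 - b ^ 2) - (y - a * b) ^ 2) := by ring
        rw [this]
        have := sq_nonneg ((1 - a ^ 2) * b - a * (y - a * b))
        linarith
      have h1 : 0 < 1 - a ^ 2 := by linarith
      have := nonneg_of_mul_nonneg_right h0 h1
      linarith
  have hy := bound _ _ _ a2 b2 h1'
  have hz := bound _ _ _ d2 e2 h2'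
  obtain ⟨α, β, k1, k2, k3⟩ := coeffs (x 0) (x 1) y a2 hy h1'
  obtain ⟨γ, δ, k4, k5, k6⟩ := coeffs (x 4) (x 3) z e2 hz (by
    have : (z - x 4 * x 3) ^ 2 = (z - x 3 * x 4) ^ 2 := by ring
    rw [this]; linarith)
  refine ⟨glue (x 0) (x 1) (x 2) (x 3) (x 4) y z α β γ δ,
    glue_psd _ _ _ _ _ _ _ _ _ _ _ hy hz h3' k1 k2 k3 k4 k5 k6, ?_, ?_⟩
  · intro i
    fin_cases i <;> simp [glue]
  · intro i
    fin_cases i <;> simp [glue]

end Pool.Agent.Results.MP_dcc435_co.RationalCompletion
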